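import Pool.Agent.Q73.LS.SelfDual

/-!
# Self-dual Chow-Kunneth decompositions of complete intersections and covers

`𝒱` is a class of smooth projective geometrically irreducible varieties over the field `k` closed
under products (for example all of them), `C` the Chow groups with rational coefficients (in the
form of their formal properties, `IsChowProj`) and `H` a Weil cohomology theory (`IsWeilProj`).

Let `f : X → Y` be a morphism, `dim X = n`, `dim Y = n + r`, such that `f^* : H^i(Y) → H^i(X)` is onto
for `i < n` (`OntoBelow`); for instance the inclusion of a smooth complete intersection of `r` ample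
divisors (Lefschetz), or, with `r = 0`, a finite covering branched along an ample divisor.

1. Let `Y` have a self-dual Chow-Kunneth decomposition for which the intersection with `f_* [X]` is
homogeneous and `h^i(Y) → h^(i + 2 r)(Y)(r)` has a left inverse for `i < n` (`SplitBelow`). Then `X` has
a self-dual Chow-Kunneth decomposition, and `f^*` is an isomorphism of Chow motives `h^i(Y) ≅ h^i(X)`
for `i < n` (`PullIso`).

2. This applies if `f_* [X] = c D^r` with `c ≠ 0` and a divisor class `D` for which `Y` has a
Chow-Kunneth decomposition, self-dual or not, satisfying motivic hard Lefschetz: for example to all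
smooth complete intersections of ample divisors proportional to `D` in an abelian variety (by the
theorems of Deninger-Murre and Kunnemann), of any dimension and codimension.
-/

open CategoryTheory AlgebraicGeometry

set_option autoImplicit false

universe u v w

namespace Pool.Agent.Results.MP_8a7054_ag.LefschetzSections

open Pool.Agent.H914 Pool.Agent.W492.BB Pool.Agent.TH133 Pool.Agent.Y107 Pool.Agent.Q73.LS

/-- Self-dual Chow-Kunneth decompositions are inherited by `X` along morphisms `f : X → Y` with
`f^*` onto in degrees below `dim X`, if the intersection with `f_* [X]` is homogeneous and split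
injective on `h^i(Y)`, `i < dim X`; this holds if `f_* [X] = c D^r` and `Y` satisfies motivic hard
Lefschetz for `D`. -/
theorem result {k : Type u} [Field k] {𝒱 : VarClass k} (C : TheoryData.{u, v, 0} 𝒱 ℚ)
    [IsChowProj C] {K : Type w} [Field K] (H : WeilTheoryData.{u, v, w} C K) [IsWeilProj H]
    (X Y : 𝒱.Obj) (f : X ⟶ Y) (r : ℕ) (hr : Y.dim = X.dim + r) (hf : OntoBelow H f) :
    (∀ π, IsCK H Y π → IsSelfDual C π → SplitBelow C f r π →
      ∃ p, IsCK H X p ∧ IsSelfDual C p ∧ PullIso C f π p) ∧
    (∀ (D : C.A Y) (c : ℚ), C.Deg 1 D → c ≠ 0 → C.push f 1 = c • D ^ r →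
      (∃ π, IsCK H Y π ∧ MotivicLefschetz C (C.mulCorr D) π) →
      ∃ π p, SelfDualLefschetz H (C.mulCorr D) π ∧ IsCK H X p ∧ IsSelfDual C p ∧
        PullIso C f π p) :=
  ⟨fun _ h1 h2 h3 => exists_selfDual_of_split hr hf h1 h2 h3,
    fun _ _ hD hc h1 h2 => exists_selfDual_of_lefschetz hD hc hr h1 hf h2⟩

end Pool.Agent.Results.MP_8a7054_ag.LefschetzSections
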