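import Pool.Agent.Q82.CK.Main

/-!
# Self-dual Chow-Kunneth decompositions from the projectors of the lower half

`𝒱` is a class of smooth projective geometrically irreducible varieties over the field `k` closed
under products (for example all of them), `C` the Chow groups with rational coefficients (in the
form of their formal properties, `IsChowProj`) and `H` a Weil cohomology theory (`IsWeilProj`).

Let `X` be a variety of dimension `d`. Then `X` has a self-dual Chow-Kunneth decomposition if and only
if there are mutually orthogonal idempotent correspondences `p_0, …, p_(d-1)` which act on the cohomology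
as the projections onto `H^0(X), …, H^(d-1)(X)`, such that with `P = p_0 + ⋯ + p_(d-1)` the **one**
homologically trivial correspondence `P ∘ ᵗP` is nilpotent.

Nothing is assumed about the degrees `≥ d`, and the correspondences `p_i ∘ ᵗp_j` and `ᵗp_j ∘ p_i` need
not vanish. For `P ∘ ᵗP = 0` this is the method of Murre and the Gram-Schmidt process of Vial.

For the proof, `T = (1 - P - ᵗP)²` commutes with `P` and `ᵗP`, the element
`U = P + ᵗP - 2 ᵗP ∘ P + T^N` is a unipotent correspondence equal to its transpose, and conjugation with
its square root makes the lower half orthogonal to its transpose.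
-/

open CategoryTheory AlgebraicGeometry

set_option autoImplicit false

universe u v w

namespace Pool.Agent.Results.MP_8a7054_ag.LowerHalfNilpotent

open Pool.Agent.H914 Pool.Agent.W492.BB Pool.Agent.TH133 Pool.Agent.Q82.CK

/-- **Self-dual Chow-Kunneth decompositions exist if and only if the lower half exists, with `P ∘ ᵗP`
nilpotent.** -/
theorem result {k : Type u} [Field k] {𝒱 : VarClass k} (C : TheoryData.{u, v, 0} 𝒱 ℚ)
    [IsChowProj C] {K : Type w} [Field K] (H : WeilTheoryData.{u, v, w} C K) [IsWeilProj H]
    (X : 𝒱.Obj) :
    (∃ π, IsCK H X π ∧ IsSelfDual C π) ↔
      ∃ p, IsPartialCK H X (Finset.range X.dim) p ∧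
        NilpotentCor C (C.comp (tp C (∑ i ∈ Finset.range X.dim, p i))
          (∑ i ∈ Finset.range X.dim, p i)) :=
  selfDual_iff

end Pool.Agent.Results.MP_8a7054_ag.LowerHalfNilpotent
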