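import Pool.Agent.Y107.SDMul

/-!
# Self-dual Chow-Kunneth decompositions and one equation between cycles

`𝒱` is a class of smooth projective geometrically irreducible varieties over the field `k` closed
under products (for example all of them), `C` the Chow groups with rational coefficients (in the
form of their formal properties, `IsChowProj`) and `H` a Weil cohomology theory (`IsWeilProj`).

Let `X` be a variety of dimension `d` and `D ∈ CH^1(X)` a divisor class satisfying the hard Lefschetz
theorem on `H(X)`, for instance an ample class. The following are equivalent: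

* the equation `(D × 1 - 1 × D)^2 · z = Δ_* D` has a solution `z ∈ CH^(d-1)(X × X)`;
* for all `c`, the cycle `Δ_* (D^c)` is a multiple `(D^c × D^c) · y` with `y ∈ CH^(d-c)(X × X)`;
* `X` has a Chow-Kunneth decomposition for which the intersection with `D` is homogeneous and induces
  isomorphisms of Chow motives `D^(d-n) : h^n(X) → h^(2d-n)(X)(d-n)` for all `n ≤ d`;
* `X` has a self-dual Chow-Kunneth decomposition with this property.

If the equation has a solution and `G` is a finite group of self-correspondences of degree zero with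
`tp (ρ g) = ρ (g⁻¹)` commuting with the intersection with `D` (for instance automorphisms of `X`
fixing the class `D`), then the self-dual decomposition can be chosen to commute with `G`.
-/

open CategoryTheory AlgebraicGeometry

set_option autoImplicit false

universe u v w

namespace Pool.Agent.Results.MP_8a7054_ag.OneCycleEquation

open Pool.Agent.H914 Pool.Agent.W492.BB Pool.Agent.TH133 Pool.Agent.Y107 Pool.Agent.W550.Corr

/-- Self-dual Chow-Kunneth decompositions satisfying motivic hard Lefschetz for `D` exist if and only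
if `(D × 1 - 1 × D)^2 z = Δ_* D` has a solution; they can then be chosen equivariantly. -/
theorem result {k : Type u} [Field k] {𝒱 : VarClass k} (C : TheoryData.{u, v, 0} 𝒱 ℚ)
    [IsChowProj C] {K : Type w} [Field K] (H : WeilTheoryData.{u, v, w} C K) [IsWeilProj H]
    (X : 𝒱.Obj) (D : C.A X) (hD : C.Deg 1 D) (hHL : HardLefschetzCor H X (C.mulCorr D)) :
    [DivisorEquation C D, DiagonalMultiples C D,
      ∃ π, IsCK H X π ∧ MotivicLefschetz C (C.mulCorr D) π,
      ∃ π, SelfDualLefschetz H (C.mulCorr D) π].TFAE ∧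
    (DivisorEquation C D → ∀ (G : Type) [Group G] [Finite G] (ρ : G → C.A (X.prod X)),
      GroupCor C ρ → (∀ g, C.comp (C.mulCorr D) (ρ g) = C.comp (ρ g) (C.mulCorr D)) →
      ∃ π, SelfDualLefschetz H (C.mulCorr D) π ∧
        ∀ g n, C.comp (π n) (ρ g) = C.comp (ρ g) (π n)) := by
  have hmem : C.Deg ((X.dim : ℤ) + 1) (C.mulCorr D) := by
    have h := C.push_mem (Pool.Agent.H914.VarClass.Obj.lift (𝟙 X) (𝟙 X)) hD
    have e1 : (1 : ℤ) + 1 * (((X.prod X).dim : ℤ) - (X.dim : ℤ)) = X.dim + 1 := by
      rw [Pool.Agent.H914.VarClass.Obj.dim_prod]; push_cast; ring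
    rwa [e1] at h
  have hall := inSquare_iff_all (C := C) (X := X) (H := H) hmem (tp_mulCorr D) hHL
  have h1 : DivisorEquation C D ↔ InSquare C (C.mulCorr D) := (inSquare_mulCorr D).symm
  have h2 : DiagonalMultiples C D ↔ PowersRegular C (C.mulCorr D) := (powersRegular_mulCorr D).symm
  have h3 : (∃ π, SelfDualLefschetz H (C.mulCorr D) π) ↔
      ∃ π, IsCK H X π ∧ IsSelfDual C π ∧ MotivicLefschetz C (C.mulCorr D) π :=
    ⟨fun ⟨π, h⟩ => ⟨π, h.ck, h.selfDual, h.lefschetz⟩, fun ⟨π, a, b, c⟩ => ⟨π, a, b, c⟩⟩
  refine ⟨?_, fun h G _ _ ρ hρ hρL => ?_⟩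
  · tfae_have 1 ↔ 2 := by rw [h1, h2]; exact hall.1
    tfae_have 1 ↔ 3 := by rw [h1]; exact hall.2.1
    tfae_have 1 ↔ 4 := by rw [h1, h3]; exact hall.2.2
    tfae_finish
  · obtain ⟨π, a, b, c, d⟩ := exists_equivariant (C := C) (X := X) (H := H) hmem (tp_mulCorr D) hHL
      (h1.1 h) G ρ hρ hρL
    exact ⟨π, ⟨a, b, c⟩, d⟩

end Pool.Agent.Results.MP_8a7054_ag.OneCycleEquation
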