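import Pool.Agent.Q69.Cut.Dual

/-!
# Self-dual Chow-Kunneth decompositions from one idempotent of `CH(X² × X²)`

`𝒱` is a class of smooth projective geometrically irreducible varieties over the field `k` closed
under products (for example all of them), `C` the Chow groups with rational coefficients (in the
form of their formal properties, `IsChowProj`) and `H` a Weil cohomology theory (`IsWeilProj`).

A lower half of a variety `Y` of dimension `n` is an idempotent `e ∈ CH^n(Y × Y)` which acts on the
cohomology `H(Y)` as the projector onto `⊕_(m < n) H^m(Y)`; it is triangular if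
`(1 - e) ∘ g ∘ e = 0` for all `g ∈ CH^n(Y × Y)`. The theorem: if `X × X` has a triangular lower half
then `X` has a self-dual Chow-Kunneth decomposition `π`, with `π_b ∘ g ∘ π_a = 0` for all
`g ∈ CH^d(X × X)` and `a < b`. Consequently all varieties have self-dual decompositions with this
property if and only if all varieties have triangular lower halves.

Neither a Chow-Kunneth decomposition of `X` or of `X × X` nor a nilpotence property is assumed.
-/

open CategoryTheory AlgebraicGeometry

set_option autoImplicit false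

universe u v w

namespace Pool.Agent.Results.MP_8a7054_ag.TriangularHalf

open Pool.Agent.H914 Pool.Agent.W492.BB Pool.Agent.TH133 Pool.Agent.Q69.Cut

/-- The decomposition `π` does not raise weights: `π_b ∘ g ∘ π_a = 0` for all `a < b` and all
self-correspondences `g` of degree zero. -/
def NotRaising {k : Type u} [Field k] {𝒱 : VarClass k} (C : TheoryData.{u, v, 0} 𝒱 ℚ) (X : 𝒱.Obj)
    (π : ℕ → C.A (X.prod X)) : Prop :=
  ∀ g : C.A (X.prod X), C.Deg X.dim g → ∀ a b : ℕ, a < b → C.comp (C.comp (π a) g) (π b) = 0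

lemma notRaising_of {k : Type u} [Field k] {𝒱 : VarClass k} {C : TheoryData.{u, v, 0} 𝒱 ℚ}
    [IsChowProj C] {X : 𝒱.Obj} {P : ℕ → Cor C X} (h : Pool.Agent.Q69.Murre.NR P P) :
    NotRaising C X P := by
  intro g hg a b hab
  have h1 := h (Pool.Agent.Q69.Murre.cr g) hg a b hab
  rw [mul_assoc] at h1
  exact h1

lemma of_notRaising {k : Type u} [Field k] {𝒱 : VarClass k} {C : TheoryData.{u, v, 0} 𝒱 ℚ}
    [IsChowProj C] {X : 𝒱.Obj} {P : ℕ → Cor C X} (h : NotRaising C X P) :
    Pool.Agent.Q69.Murre.NR P P := by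
  intro g hg a b hab
  rw [mul_assoc]
  exact h g hg a b hab

/-- If `X × X` has a triangular lower half then `X` has a self-dual Chow-Kunneth decomposition; all
varieties have self-dual decompositions which do not raise weights if and only if all varieties have
triangular lower halves. -/
theorem result {k : Type u} [Field k] {𝒱 : VarClass k} (C : TheoryData.{u, v, 0} 𝒱 ℚ)
    [IsChowProj C] {K : Type w} [Field K] (H : WeilTheoryData.{u, v, w} C K) [IsWeilProj H] :
    (∀ X : 𝒱.Obj, (∃ E, IsHalf H (X.prod X) E ∧ Triangular C (X.prod X) E) →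
      ∃ π : ℕ → C.A (X.prod X), IsCK H X π ∧ IsSelfDual C π ∧ NotRaising C X π) ∧
    [∀ X : 𝒱.Obj, ∃ e, IsHalf H X e ∧ Triangular C X e,
      ∀ X : 𝒱.Obj, ∃ π : ℕ → C.A (X.prod X), IsCK H X π ∧ NotRaising C X π,
      ∀ X : 𝒱.Obj, ∃ π : ℕ → C.A (X.prod X), IsCK H X π ∧ IsSelfDual C π ∧
        NotRaising C X π].TFAE := by
  have key : ∀ X : 𝒱.Obj, (∃ E, IsHalf H (X.prod X) E ∧ Triangular C (X.prod X) E) →
      ∃ π : ℕ → C.A (X.prod X), IsCK H X π ∧ IsSelfDual C π ∧ NotRaising C X π := by
    rintro X ⟨E, hE, ht⟩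
    obtain ⟨P, hP, hN⟩ := exists_NR_of_half hE ht
    obtain ⟨π, h1, h2, h3⟩ := selfDual_of_NR hP hN
    exact ⟨π, h1, h2, notRaising_of h3⟩
  refine ⟨key, ?_⟩
  tfae_have 1 → 3 := fun h X => key X (h (X.prod X))
  tfae_have 3 → 2 := by
    intro h X
    obtain ⟨π, h1, _, h3⟩ := h X
    exact ⟨π, h1, h3⟩
  tfae_have 2 → 1 := by
    intro h X
    obtain ⟨π, h1, h2⟩ := h X
    exact triangular_of_NR (P := π) h1 (of_notRaising h2)
  tfae_finish

end Pool.Agent.Results.MP_8a7054_ag.TriangularHalf
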